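import Pool.Agent.H61.BRX.Stmts

/-!
# Row NML of the board `brx`: local minima are the switches
-/

set_option autoImplicit false

namespace Pool.STN

theorem NML_thm (h1 : TRIStmt) : NMLStmt := by
  intro m k hm hk hF
  obtain ⟨-, hper, hlt, hgt, hdd, hnd⟩ := h1 m k hm hk hF
  have hP : Function.Periodic (fun i => F^[i] m) k := fun i => hper i
  have hdper : ∀ i, dd m (i % k) ↔ dd m i := by
    intro i
    unfold dd
    have := hP.map_mod_nat i
    rw [this]
  have hdk : ∀ i t, dd m (i + t * k) ↔ dd m i := by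
    intro i t
    rw [← hdper (i + t * k), Nat.add_mul_mod_self_right, hdper]
  have hlm : lm F m k = nm m k := by
    unfold lm nm
    congr 1
    apply Finset.filter_congr
    intro j _
    unfold sw dd
    rw [hlt j]
    have h2 := hgt (j + 1)
    rw [show j + 1 + 1 = j + 2 from rfl] at h2
    rw [h2]
  have hkpos : 0 < k := hk
  refine ⟨hlm, ?_, ?_, ?_⟩
  · unfold nm
    rw [Nat.one_le_iff_ne_zero, Finset.card_ne_zero]
    by_contra hcon
    rw [Finset.not_nonempty_iff_eq_empty, Finset.filter_eq_empty_iff] at hcon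
    have hno : ∀ j, dd m j → dd m (j + 1) := by
      intro j hj
      by_contra hc
      apply hcon (Finset.mem_range.2 (Nat.mod_lt j hkpos))
      refine ⟨(hdper j).2 hj, fun h => hc ?_⟩
      rw [← hdper, Nat.mod_add_mod, hdper] at h
      exact h
    obtain ⟨i₀, hi₀⟩ := hdd
    obtain ⟨i₁, hi₁⟩ := hnd
    have hall : ∀ t, dd m (i₀ + t) := by
      intro t
      induction t with
      | zero => exact hi₀
      | succ t ih => exact hno _ ih
    have h3 : i₀ ≤ i₁ + i₀ * k := by
      have : i₀ * 1 ≤ i₀ * k := Nat.mul_le_mul_left _ hk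
      omega
    have h4 := hall (i₁ + i₀ * k - i₀)
    rw [Nat.add_sub_cancel' h3, hdk] at h4
    exact hi₁ h4
  · obtain ⟨i₀, hi₀⟩ := hdd
    rw [Nat.one_le_iff_ne_zero, Finset.card_ne_zero]
    exact ⟨i₀ % k, Finset.mem_filter.2 ⟨Finset.mem_range.2 (Nat.mod_lt _ hkpos), (hdper i₀).2 hi₀⟩⟩
  · obtain ⟨i₁, hi₁⟩ := hnd
    rw [Nat.one_le_iff_ne_zero, Finset.card_ne_zero]
    refine ⟨i₁ % k, Finset.mem_filter.2 ⟨Finset.mem_range.2 (Nat.mod_lt _ hkpos), ?_⟩⟩
    intro h
    exact hi₁ ((hdper i₁).1 h)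

end Pool.STN
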